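import Pool.Agent.Helper84_HK.KAP

/-! HK, module HTN (helper84): `T_n = - W` on cochains vanishing at both cusps. -/

namespace Pool.Agent.HK.H84

open Polynomial

variable {F : Type} [Field F]

theorem one_iw : (1 : GLK F) ∈ Iwahori := by
  rw [← H47.mat_one (F := F)]
  obtain ⟨q1, q2, q3, q4⟩ := H47.mat_entries (1 : Kinf F) 0 0 1 (by simp)
  refine ⟨?_, ?_, ?_, ?_, ?_, ?_⟩
  · rw [q1]; exact H9.inO_one
  · rw [q2]; exact H9.inO_zero _
  · rw [q3]; exact H9.inO_zero _
  · rw [q4]; exact H9.inO_one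
  · rw [q1, H9.coeff_one_zero]; exact one_ne_zero
  · rw [q4, H9.coeff_one_zero]; exact one_ne_zero

theorem emb_inj {a b : F[X]} (h : emb F a = emb F b) : a = b := by
  have h1 := (H19.lau F).2.2.2.2.2.2.2.2.2.2.2.1 (a - b)
    (by rw [map_sub, h, sub_self]; exact H9.inO_zero _)
  exact sub_eq_zero.1 h1

/-- coset representatives -/
noncomputable def rep (n : F[X]) : Option {x : F[X] // x.degree < n.degree} → GLK F
  | none => 1
  | some x => mat 0 (-1) 1 (emb F (x : F[X]))

theorem rep_det (x : F[X]) : (0 : Kinf F) * emb F x - (-1) * 1 ≠ 0 := by simp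

theorem rep_ent (x : F[X]) : (mat 0 (-1) 1 (emb F x) : GLK F) 0 0 = 0 ∧
    (mat 0 (-1) 1 (emb F x) : GLK F) 0 1 = -1 ∧
    (mat 0 (-1) 1 (emb F x) : GLK F) 1 0 = 1 ∧
    (mat 0 (-1) 1 (emb F x) : GLK F) 1 1 = emb F x := H47.mat_entries _ _ _ _ (rep_det x)

theorem rep_gla (n : F[X]) (i : Option {x : F[X] // x.degree < n.degree}) :
    ∃ γ : GLA F, toK γ = rep n i := by
  cases i with
  | none => exact ⟨1, by rw [map_one]; rfl⟩
  | some x =>
    obtain ⟨γ, h1, h2, h3, h4⟩ := H47.exists_gla (0 : F[X]) (-1) 1 (x : F[X]) (by simp)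
    refine ⟨γ, ?_⟩
    obtain ⟨e1, e2, e3, e4⟩ := rep_ent (x : F[X])
    unfold rep
    apply H47.glk_ext
    · rw [H47.toK_entry, h1, e1, map_zero]
    · rw [H47.toK_entry, h2, e2, map_neg, map_one]
    · rw [H47.toK_entry, h3, e3, map_one]
    · rw [H47.toK_entry, h4, e4]

theorem rep_distinct {n : F[X]} (hn : Irreducible n)
    (i j : Option {x : F[X] // x.degree < n.degree}) (θ : GLA F) (hθ : θ ∈ Gam0 n)
    (h : toK θ * rep n j = rep n i) : i = j := by
  have hθ' : n ∣ θ 1 0 := hθ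
  have hone : ((1 : GLK F) : Matrix (Fin 2) (Fin 2) (Kinf F)) = 1 := rfl
  cases j with
  | none =>
    cases i with
    | none => rfl
    | some x =>
      exfalso
      have h1 : (toK θ : GLK F) 1 0 = 1 := by
        have h2 : toK θ = rep n (some x) := by rw [← h]; exact (mul_one _).symm
        rw [h2]; exact (rep_ent (x : F[X])).2.2.1
      rw [H47.toK_entry] at h1
      have h2 : θ 1 0 = 1 := emb_inj (by rw [h1, map_one])
      rw [h2] at hθ'
      exact hn.not_isUnit (isUnit_of_dvd_one hθ')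
  | some y =>
    have e10 := H47.mul_entry (toK θ) (rep n (some y)) 1 0
    have e11 := H47.mul_entry (toK θ) (rep n (some y)) 1 1
    obtain ⟨f1, f2, f3, f4⟩ := rep_ent (y : F[X])
    change _ = _ * (mat 0 (-1) 1 (emb F (y : F[X])) : GLK F) 0 0 +
      _ * (mat 0 (-1) 1 (emb F (y : F[X])) : GLK F) 1 0 at e10
    change _ = _ * (mat 0 (-1) 1 (emb F (y : F[X])) : GLK F) 0 1 +
      _ * (mat 0 (-1) 1 (emb F (y : F[X])) : GLK F) 1 1 at e11
    rw [h, f1, f3, H47.toK_entry, H47.toK_entry] at e10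
    rw [h, f2, f4, H47.toK_entry, H47.toK_entry] at e11
    cases i with
    | none =>
      exfalso
      have g10 : (rep n none : GLK F) 1 0 = 0 := by
        change ((1 : GLK F) : Matrix (Fin 2) (Fin 2) (Kinf F)) 1 0 = 0
        rw [hone]; simp
      have g11 : (rep n none : GLK F) 1 1 = 1 := by
        change ((1 : GLK F) : Matrix (Fin 2) (Fin 2) (Kinf F)) 1 1 = 1
        rw [hone]; simp
      rw [g10] at e10
      rw [g11] at e11
      have h1 : emb F (θ 1 1) = 0 := by rw [mul_zero, zero_add, mul_one] at e10; exact e10.symm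
      rw [h1, zero_mul, add_zero, mul_neg, mul_one] at e11
      have h2 : θ 1 0 = -1 := emb_inj (by rw [map_neg, map_one, e11, neg_neg])
      rw [h2, dvd_neg] at hθ'
      exact hn.not_isUnit (isUnit_of_dvd_one hθ')
    | some x =>
      have g10 : (rep n (some x) : GLK F) 1 0 = 1 := (rep_ent (x : F[X])).2.2.1
      have g11 : (rep n (some x) : GLK F) 1 1 = emb F (x : F[X]) := (rep_ent (x : F[X])).2.2.2
      rw [g10, mul_zero, zero_add, mul_one] at e10
      rw [g11, ← e10, one_mul, mul_neg, mul_one] at e11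
      have h2 : θ 1 0 = (y : F[X]) - x := emb_inj (by rw [map_sub, e11]; ring)
      rw [h2] at hθ'
      have h3 : ((y : F[X]) - x).degree < n.degree :=
        lt_of_le_of_lt (degree_sub_le _ _) (max_lt y.2 x.2)
      have h4 : (y : F[X]) - x = 0 := eq_zero_of_dvd_of_degree_lt hθ' h3
      congr 1
      exact Subtype.ext (sub_eq_zero.1 h4).symm

theorem rep_exists (hC : COSStmt) {n : F[X]} (hm : n.Monic) (hn : Irreducible n) (γ : GLA F) :
    ∃ (i : Option {x : F[X] // x.degree < n.degree}) (δ : GLA F), δ ∈ Gam0 n ∧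
      toK γ = toK δ * rep n i := by
  rcases (hC F n hm hn).1 γ with h | ⟨δ, hδ, x, hx, h⟩
  · exact ⟨none, γ, h, (mul_one _).symm⟩
  · exact ⟨some ⟨x, hx⟩, δ, hδ, h⟩

/-- right multiplication by `γ ∈ GL_2(A)` permutes the cosets -/
theorem rep_perm (hC : COSStmt) {n : F[X]} (hm : n.Monic) (hn : Irreducible n)
    [Finite {x : F[X] // x.degree < n.degree}] (γ : GLA F) :
    ∃ e : Option {x : F[X] // x.degree < n.degree} ≃ Option {x : F[X] // x.degree < n.degree},
      ∀ i, ∃ δ ∈ Gam0 n, rep n i * toK γ = toK δ * rep n (e i) := by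
  have h1 : ∀ i, ∃ (j : Option {x : F[X] // x.degree < n.degree}) (δ : GLA F), δ ∈ Gam0 n ∧
      rep n i * toK γ = toK δ * rep n j := by
    intro i
    obtain ⟨ρ, hρ⟩ := rep_gla n i
    obtain ⟨j, δ, hδ, h⟩ := rep_exists hC hm hn (ρ * γ)
    rw [map_mul, hρ] at h
    exact ⟨j, δ, hδ, h⟩
  choose e δ hδ he using h1
  have hinj : Function.Injective e := by
    intro i j hij
    apply rep_distinct hn i j (δ i * (δ j)⁻¹)
    · have hM := H47.mtx F
      exact hM.2.2.2.2.2.2.2.2.2.2.2.2.2.2.2.1 n _ _ (hδ i)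
        (hM.2.2.2.2.2.2.2.2.2.2.2.2.2.2.2.2 n _ (hδ j))
    · have e1 := he i
      have e2 := he j
      rw [← hij] at e2
      rw [map_mul, map_inv]
      have e3 : (toK (δ j) : GLK F)⁻¹ * (rep n j * toK γ) = rep n (e i) := by
        rw [e2, inv_mul_cancel_left]
      rw [← e3] at e1
      have e4 : rep n i * toK γ = (toK (δ i) * (toK (δ j))⁻¹ * rep n j) * toK γ := by
        rw [e1]; simp only [mul_assoc]
      exact (mul_right_cancel e4).symm
  exact ⟨Equiv.ofBijective e (Finite.injective_iff_bijective.1 hinj), fun i => ⟨δ i, hδ i, he i⟩⟩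

theorem mem_HIdx {n : F[X]} (hm : n.Monic) (hn : Irreducible n) (x : F[X] × F[X] × F[X]) :
    x ∈ HIdx n n ↔ x.1 = 1 ∧ x.2.2 = n ∧ x.2.1.degree < n.degree := by
  constructor
  · rintro ⟨h1, h2, h3, h4, h5⟩
    have h6 : IsUnit x.1 := by
      have : x.1 ∣ n := ⟨x.2.2, h3.symm⟩
      exact h4.isUnit_of_dvd' dvd_rfl this
    have h7 : x.1 = 1 := h1.eq_one_of_isUnit h6
    rw [h7, one_mul] at h3
    rw [h3] at h5
    exact ⟨h7, h3, h5⟩
  · rintro ⟨h1, h2, h3⟩
    refine ⟨by rw [h1]; exact monic_one, by rw [h2]; exact hm, by rw [h1, h2, one_mul], ?_, ?_⟩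
    · rw [h1]; exact isCoprime_one_left
    · rw [h2]; exact h3

variable [Fintype F] {R : Type} [AddCommGroup R]

theorem scal_left {φ : GLK F → R} (hφ : IsHarm φ) (z : Kinf F) (hz : z ≠ 0) (g : GLK F) :
    φ (scal z * g) = φ g := by
  have h := hφ.inv g z 1 hz one_iw
  rw [mul_one, H47.scal_comm z g hz] at h
  exact h

theorem harm_add {φ ψ : GLK F → R} (h1 : IsHarm φ) (h2 : IsHarm ψ) :
    IsHarm (fun g => φ g + ψ g) where
  inv g z k hz hk := by
    change φ _ + ψ _ = φ g + ψ g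
    rw [h1.inv g z k hz hk, h2.inv g z k hz hk]
  rev g := by
    change φ _ + ψ _ = -(φ g + ψ g)
    rw [h1.rev g, h2.rev g]; abel
  sum g := by
    change φ g + ψ g + ∑ u : F, (φ _ + ψ _) = 0
    rw [Finset.sum_add_distrib]
    have e1 := h1.sum g
    have e2 := h2.sum g
    calc φ g + ψ g + (∑ u : F, φ (g * mat (cst F u) 1 1 0) + ∑ u : F, ψ (g * mat (cst F u) 1 1 0))
        = (φ g + ∑ u : F, φ (g * mat (cst F u) 1 1 0)) +
          (ψ g + ∑ u : F, ψ (g * mat (cst F u) 1 1 0)) := by abel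
      _ = 0 := by rw [e1, e2, add_zero]

/-- the Hecke operator `T_n` as a sum over cosets -/
theorem hecke_nn {n : F[X]} (hm : n.Monic) (hn : Irreducible n)
    [Fintype {x : F[X] // x.degree < n.degree}] {φ : GLK F → R} (hφ : IsHarm φ) (g : GLK F) :
    hecke n n φ g = ∑ x : {x : F[X] // x.degree < n.degree}, atk n φ (rep n (some x) * g) := by
  have hne : emb F n ≠ 0 := fun h => hn.ne_zero (emb_inj (by rw [h, map_zero]))
  have hterm : ∀ x : F[X], φ (hmat (1, x, n) * g) =
      atk n φ (mat 0 (-1) 1 (emb F x) * g) := by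
    intro x
    have e1 : Wmat n * mat 0 (-1) 1 (emb F x) = (scal (-1) * hmat (1, x, n) : GLK F) := by
      unfold Wmat scal hmat
      rw [H47.mat_mul _ _ _ _ _ _ _ _ (by simpa using hne) (by simp),
        H47.mat_mul _ _ _ _ _ _ _ _ (by simp) (by simpa using hne)]
      congr 1
      · simp
      · simp
      · simp
      · simp
    unfold atk
    rw [← mul_assoc, e1, mul_assoc, scal_left hφ _ (by simp)]
  unfold hecke
  have h1 : ∑ᶠ x ∈ HIdx n n, φ (hmat x * g) =
      ∑ᶠ x ∈ {x : F[X] | x.degree < n.degree}, atk n φ (mat 0 (-1) 1 (emb F x) * g) := by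
    symm
    refine finsum_mem_eq_of_bijOn (fun x : F[X] => ((1 : F[X]), x, n)) ?_ ?_
    · refine ⟨fun x hx => ?_, fun x _ y _ h => ?_, fun x hx => ?_⟩
      · exact (mem_HIdx hm hn _).2 ⟨rfl, rfl, hx⟩
      · simp only [Prod.mk.injEq, and_true, true_and] at h
        exact h
      · obtain ⟨h1, h2, h3⟩ := (mem_HIdx hm hn _).1 hx
        refine ⟨x.2.1, h3, ?_⟩
        obtain ⟨a, b, d⟩ := x
        simp only at h1 h2
        rw [h1, h2]
    · intro x _
      exact (hterm x).symm
  rw [h1, ← finsum_set_coe_eq_finsum_mem]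
  exact finsum_eq_sum_of_fintype
    (fun x : {x : F[X] // x.degree < n.degree} => atk n φ (mat 0 (-1) 1 (emb F (x : F[X])) * g))

theorem htn (hZ : ZLVStmt) (hA : ATKStmt) (hW : HWDStmt) (hR : HRIStmt) (hC : COSStmt)
    (hP : HPMStmt) : HTNStmt := by
  intro F _ _ R _ n hm hn φ hφ g
  have hn0 : n ≠ 0 := hn.ne_zero
  have hfin : Finite {x : F[X] // x.degree < n.degree} := by
    have h1 := (hP F n n hn0 hm).1
    have h2 : Set.InjOn (fun x : F[X] => ((1 : F[X]), x, n)) {x : F[X] | x.degree < n.degree} := by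
      intro x _ y _ h
      simp only [Prod.mk.injEq, and_true, true_and] at h
      exact h
    have h3 : Set.MapsTo (fun x : F[X] => ((1 : F[X]), x, n)) {x : F[X] | x.degree < n.degree}
        (HIdx n n) := fun x hx => (mem_HIdx hm hn _).2 ⟨rfl, rfl, hx⟩
    exact (Set.Finite.of_injOn h3 h2 h1).to_subtype
  have : Fintype {x : F[X] // x.degree < n.degree} := Fintype.ofFinite _
  obtain ⟨a1, a2, a3⟩ := hA F R n hn0 φ hφ.harm hφ.invt
  obtain ⟨b1, b2⟩ := hW F R n n hn0 hm φ hφ.harm hφ.invt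
  have hΨ : ∀ g, atk n φ g + hecke n n φ g =
      ∑ i : Option {x : F[X] // x.degree < n.degree}, atk n φ (rep n i * g) := by
    intro g
    rw [Fintype.sum_option, hecke_nn hm hn hφ.harm]
    congr 1
    change _ = atk n φ (1 * g)
    rw [one_mul]
  have hinv : Invt 1 (fun g => atk n φ g + hecke n n φ g) := by
    intro γ _ g
    simp only
    rw [hΨ, hΨ]
    obtain ⟨e, he⟩ := rep_perm hC hm hn γ
    rw [← Equiv.sum_comp e (fun i => atk n φ (rep n i * g))]
    refine Finset.sum_congr rfl fun i _ => ?_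
    obtain ⟨δ, hδ, h⟩ := he i
    rw [← mul_assoc, h, mul_assoc]
    exact a2 δ hδ _
  have hval : HK.val (fun g => atk n φ g + hecke n n φ g) 1 0 = 0 := by
    have h1 := hφ.rzero
    have h2 := hR F R n n hn0 hm φ hφ.harm hφ.invt hφ.rinf
    unfold HK.val at h1 h2 ⊢
    simp only
    rw [h1, h2, add_zero]
  have h := hZ F R _ (harm_add a1 b1) hinv hval g
  exact eq_neg_of_add_eq_zero_right h

end Pool.Agent.HK.H84
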