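import Pool.Agent.Helper8_HK.Stmt1
import Pool.Agent.Helper19_HK.LAU
import Pool.Agent.Helper47_HK.MTX
import Pool.Agent.Helper9_HK.VAL

/-! HK, module KAP (helper84). -/

namespace Pool.Agent.HK.H84

open Polynomial

variable {F : Type} [Field F]

theorem InO_emb (a : F[X]) (d : ℕ) (h : a.natDegree ≤ d) : InO (-(d : ℤ)) (emb F a) := by
  intro i hi
  obtain ⟨h1, h2⟩ := H19.coeff_emb a
  obtain ⟨k, rfl⟩ : ∃ k : ℕ, i = -(k : ℤ) := ⟨(-i).toNat, by omega⟩
  rw [h1 k]
  exact coeff_eq_zero_of_natDegree_lt (by omega)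

/-- the polynomial with coefficients `t` -/
noncomputable def pol (t : Fin 4 → F) : F[X] := ∑ j : Fin 4, C (t j) * X ^ (j : ℕ)

theorem pol_coeff (t : Fin 4 → F) (j : Fin 4) : (pol t).coeff (j : ℕ) = t j := by
  unfold pol
  rw [finset_sum_coeff]
  simp only [coeff_C_mul, coeff_X_pow]
  rw [Finset.sum_eq_single j]
  · simp
  · intro b _ hb
    have : ¬ (j : ℕ) = (b : ℕ) := fun h => hb (Fin.ext h.symm)
    simp [this]
  · simp

theorem pol_deg (t : Fin 4 → F) : (pol t).natDegree ≤ 3 := by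
  unfold pol
  refine natDegree_sum_le_of_forall_le _ _ fun j _ => ?_
  refine (natDegree_C_mul_X_pow_le _ _).trans ?_
  have := j.2; omega

theorem pol_sub (t t' : Fin 4 → F) : pol t - pol t' = pol (t - t') := by
  unfold pol
  rw [← Finset.sum_sub_distrib]
  refine Finset.sum_congr rfl fun j _ => ?_
  rw [Pi.sub_apply, C_sub]; ring

theorem pol_inj {t : Fin 4 → F} (h : pol t = 0) : t = 0 := by
  funext j
  rw [← pol_coeff t j, h]; simp

theorem InO_sum {ι : Type} (s : Finset ι) (f : ι → Kinf F) (k : ℤ) (h : ∀ i ∈ s, InO k (f i)) :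
    InO k (∑ i ∈ s, f i) := by
  classical
  induction s using Finset.induction_on with
  | empty => intro i _; simp
  | insert a s ha ih =>
    rw [Finset.sum_insert ha]
    exact H47.InO_add _ _ _ (h a (Finset.mem_insert_self _ _))
      (ih fun i hi => h i (Finset.mem_insert_of_mem hi))

/-- truncated expansion -/
noncomputable def trn (s : Fin 4 → F) : Kinf F :=
  ∑ j : Fin 4, cst F (s j) * (unif F) ^ (1 + (j : ℕ))

theorem trn_term (c : F) (k : ℕ) (i : ℤ) :
    HahnSeries.coeff (cst F c * (unif F) ^ k) i = if i = k then c else 0 := by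
  rw [H19.coeff_cst_mul, H19.unif_pow, HahnSeries.coeff_single]
  split_ifs <;> simp

/-- the truncated expansion of `u ∈ π O` agrees with `u` modulo `π^5` -/
theorem trn_InO (u : Kinf F) (hu : InO 1 u) :
    InO 5 (u - trn (fun j : Fin 4 => HahnSeries.coeff u (1 + ((j : ℕ) : ℤ)))) := by
  intro i hi
  unfold trn
  rw [HahnSeries.coeff_sub]
  have h1 : ∀ s : Fin 4 → Kinf F, HahnSeries.coeff (∑ j : Fin 4, s j) i =
      ∑ j : Fin 4, HahnSeries.coeff (s j) i := by
    intro s; simp only [Fin.sum_univ_four, HahnSeries.coeff_add]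
  rw [h1]
  simp only [trn_term]
  rcases lt_or_ge i 1 with h | h
  · rw [hu i h, Finset.sum_eq_zero, sub_zero]
    intro j _
    have : ¬ i = ((1 + (j : ℕ) : ℕ) : ℤ) := by omega
    rw [if_neg this]
  · obtain ⟨k, hk⟩ : ∃ k : ℕ, i = 1 + (k : ℤ) := ⟨(i - 1).toNat, by omega⟩
    have hk4 : k < 4 := by omega
    rw [Finset.sum_eq_single (⟨k, hk4⟩ : Fin 4)]
    · subst hk
      simp
    · intro b _ hb
      have : ¬ i = ((1 + (b : ℕ) : ℕ) : ℤ) := by
        intro h2
        apply hb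
        apply Fin.ext
        simp only
        omega
      rw [if_neg this]
    · simp

theorem trn_InO1 (s : Fin 4 → F) : InO 1 (trn s) := by
  unfold trn
  refine InO_sum _ _ _ fun j _ i hi => ?_
  rw [trn_term]
  have : ¬ i = ((1 + (j : ℕ) : ℕ) : ℤ) := by omega
  rw [if_neg this]

section main

variable {n : F[X]} (hn : n.Monic) (hd : n.natDegree = 4)

include hn hd

/-- `emb n = π^{-4} ν` -/
theorem emb_n : ∃ ν : Kinf F, emb F n = (unif F) ^ (-4 : ℤ) * ν ∧ InO 0 ν ∧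
    HahnSeries.coeff ν 0 = 1 := by
  obtain ⟨ν, h1, h2, h3⟩ := (H19.lau F).2.2.2.2.2.2.2.2.2.2.2.2 n hn
  refine ⟨ν, ?_, h2, h3⟩
  rw [h1, hd]; rfl

theorem emb_n_ne : emb F n ≠ 0 := by
  obtain ⟨ν, h1, h2, h3⟩ := emb_n hn hd
  rw [h1]
  refine mul_ne_zero (zpow_ne_zero _ H19.unif_ne) ?_
  rintro rfl
  simp at h3

/-- division by `n` -/
theorem div_n (x : Kinf F) (k : ℤ) (hx : InO k x) : InO (k + 4) (x / emb F n) ∧
    HahnSeries.coeff (x / emb F n) (k + 4) = HahnSeries.coeff x k := by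
  obtain ⟨ν, h1, h2, h3⟩ := emb_n hn hd
  have hν : ν ≠ 0 := by rintro rfl; simp at h3
  have e1 : x / emb F n = (unif F) ^ (4 : ℤ) * (ν⁻¹ * x) := by
    have hu := H19.unif_ne (F := F)
    rw [h1, div_eq_iff (mul_ne_zero (zpow_ne_zero _ hu) hν)]
    have e2 : (unif F) ^ (4 : ℤ) * (ν⁻¹ * x) * ((unif F) ^ (-4 : ℤ) * ν) =
        ((unif F) ^ (4 : ℤ) * (unif F) ^ (-4 : ℤ)) * (ν⁻¹ * ν) * x := by ring
    rw [e2, ← zpow_add₀ hu, inv_mul_cancel₀ hν]; simp
  obtain ⟨h4, h5⟩ := H19.inv_InO ν h2 (by rw [h3]; exact one_ne_zero)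
  obtain ⟨h6, h7⟩ := H19.mul_InO 0 k ν⁻¹ x h4 hx
  rw [zero_add] at h6 h7
  refine ⟨fun i hi => ?_, ?_⟩
  · rw [e1, H19.coeff_unif_mul]; exact h6 _ (by omega)
  · rw [e1, H19.coeff_unif_mul]
    have : k + 4 - 4 = k := by ring
    rw [this, h7, h5, h3]; simp

/-- digits of `P_t / n` -/
theorem u_InO (t : Fin 4 → F) : InO 1 (emb F (pol t) / emb F n) :=
  (div_n hn hd _ (-3) (InO_emb _ 3 (pol_deg t))).1

theorem dig_inj : Function.Injective (fun t : Fin 4 → F => fun j : Fin 4 =>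
    HahnSeries.coeff (emb F (pol t) / emb F n) (1 + ((j : ℕ) : ℤ))) := by
  intro t t' h
  have h1 := trn_InO _ (u_InO hn hd t)
  have h2 := trn_InO _ (u_InO hn hd t')
  simp only at h
  rw [h] at h1
  have h3 := H47.InO_sub 5 _ _ h1 h2
  rw [sub_sub_sub_cancel_right, ← sub_div, ← map_sub, pol_sub] at h3
  have h4 : InO 1 (emb F (pol (t - t'))) := by
    have h5 := (H47.InO_mul (-4) 5 (emb F n) _ (InO_emb n 4 (by omega)) h3).1
    rw [mul_div_cancel₀ _ (emb_n_ne hn hd)] at h5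
    exact h5
  have h6 := (H19.lau F).2.2.2.2.2.2.2.2.2.2.2.1 _ h4
  exact sub_eq_zero.1 (pol_inj h6)

/-- the condition -/
theorem cond (m : F[X]) (hm : m.natDegree ≤ 3) (t : Fin 4 → F) :
    HahnSeries.coeff (emb F m * trn (fun j : Fin 4 =>
      HahnSeries.coeff (emb F (pol t) / emb F n) (1 + ((j : ℕ) : ℤ)))) 1 =
    ((m * pol t) %ₘ n).coeff 3 := by
  have h1 := trn_InO _ (u_InO hn hd t)
  have h2 := (H47.InO_mul (-3) 5 (emb F m) _ (InO_emb m 3 hm) h1).1
  have h3 := h2 1 (by norm_num)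
  rw [mul_sub, HahnSeries.coeff_sub] at h3
  rw [← sub_eq_zero.1 h3]
  have e1 : emb F m * (emb F (pol t) / emb F n) =
      emb F ((m * pol t) /ₘ n) + emb F ((m * pol t) %ₘ n) / emb F n := by
    have hne := emb_n_ne hn hd
    rw [← mul_div_assoc, div_eq_iff hne, add_mul, div_mul_cancel₀ _ hne, ← map_mul, ← map_mul,
      ← map_add]
    congr 1
    have := modByMonic_add_div (m * pol t) n
    rw [add_comm, mul_comm]
    rw [mul_comm]
    conv_lhs => rw [← this]
    ring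
  rw [e1, HahnSeries.coeff_add, (H19.coeff_emb _).2 1 (by norm_num), zero_add]
  have h4 : ((m * pol t) %ₘ n).natDegree ≤ 3 := by
    have h5 : n ≠ 1 := by rintro rfl; simp at hd
    have := natDegree_modByMonic_lt (m * pol t) hn h5
    omega
  have h6 := (div_n hn hd _ (-3) (InO_emb _ 3 h4)).2
  have h7 : (-3 + 4 : ℤ) = 1 := by norm_num
  rw [h7] at h6
  rw [h6]
  exact (H19.coeff_emb _).1 3

variable [Fintype F] {R : Type} [AddCommGroup R]

/-- the values -/
theorem values (φ : GLK F → R) (hφ : IsHarm φ) (κ : F[X]) :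
    val φ 5 (emb F κ / emb F n) = - atk n φ (mat 1 0 (-(emb F κ)) (-1)) := by
  obtain ⟨ν, h1, h2, h3⟩ := emb_n hn hd
  have hu := H19.unif_ne (F := F)
  have hne := emb_n_ne hn hd
  have hν : ν ≠ 0 := by rintro rfl; simp at h3
  have e1 : Wmat n * mat 1 0 (-(emb F κ)) (-1) = (mat (emb F κ) 1 (emb F n) 0 : GLK F) := by
    unfold Wmat
    rw [H47.mat_mul _ _ _ _ _ _ _ _ (by simpa using hne) (by simp)]
    congr 1 <;> ring
  have e2 : (mat (emb F κ) 1 (emb F n) 0 : GLK F) * flipM =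
      mat (unif F) (emb F κ) 0 (emb F n) := by
    unfold flipM
    rw [H47.mat_mul _ _ _ _ _ _ _ _ (by simpa using hne) (by simpa using hu)]
    congr 1 <;> ring
  have e3 : (mat (unif F) (emb F κ) 0 (emb F n) : GLK F) * mat ν 0 0 1 =
      mat (unif F * ν) (emb F κ) 0 (emb F n) := by
    rw [H47.mat_mul _ _ _ _ _ _ _ _ (by simpa using ⟨hu, hne⟩) (by simpa using hν)]
    congr 1 <;> ring
  have e4 : (mat ((unif F) ^ (5 : ℤ)) (emb F κ / emb F n) 0 1 : GLK F) * scal (emb F n) =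
      mat (unif F * ν) (emb F κ) 0 (emb F n) := by
    unfold scal
    rw [H47.mat_mul _ _ _ _ _ _ _ _ (by simpa using hu) (by simpa using hne)]
    congr 1
    · rw [h1, mul_zero, add_zero, ← mul_assoc, ← zpow_add₀ hu]
      norm_num
    · rw [mul_zero, zero_add, div_mul_cancel₀ _ hne]
    · ring
    · ring
  have hone : (1 : GLK F) ∈ Iwahori := by
    have := H47.mat_one (F := F)
    rw [← this]
    obtain ⟨q1, q2, q3, q4⟩ := H47.mat_entries (1 : Kinf F) 0 0 1 (by simp)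
    refine ⟨?_, ?_, ?_, ?_, ?_, ?_⟩
    · rw [q1]; exact H9.inO_one
    · rw [q2]; exact H9.inO_zero _
    · rw [q3]; exact H9.inO_zero _
    · rw [q4]; exact H9.inO_one
    · rw [q1, H9.coeff_one_zero]; exact one_ne_zero
    · rw [q4, H9.coeff_one_zero]; exact one_ne_zero
  have hdg : (mat ν 0 0 1 : GLK F) ∈ Iwahori := by
    obtain ⟨q1, q2, q3, q4⟩ := H47.mat_entries ν 0 0 1 (by simpa using hν)
    refine ⟨?_, ?_, ?_, ?_, ?_, ?_⟩
    · rw [q1]; exact h2
    · rw [q2]; exact H9.inO_zero _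
    · rw [q3]; exact H9.inO_zero _
    · rw [q4]; exact H9.inO_one
    · rw [q1, h3]; exact one_ne_zero
    · rw [q4, H9.coeff_one_zero]; exact one_ne_zero
  have hsc1 : (scal (1 : Kinf F) : GLK F) = 1 := H47.mat_one
  unfold HK.val
  have f1 := hφ.inv (mat ((unif F) ^ (5 : ℤ)) (emb F κ / emb F n) 0 1) (emb F n) 1 hne hone
  rw [mul_one, e4, ← e3] at f1
  have f2 := hφ.inv (mat (unif F) (emb F κ) 0 (emb F n)) 1 (mat ν 0 0 1) one_ne_zero hdg
  rw [hsc1, mul_one] at f2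
  have f3 := hφ.rev (mat (emb F κ) 1 (emb F n) 0)
  rw [e2] at f3
  rw [← f1, f2, f3]
  unfold atk
  rw [e1]

end main

theorem kap : KAPStmt := by
  intro F _ _ _ R _ n m hn hd hm hm3 φ hφ hI
  have hbij : Function.Bijective (fun t : Fin 4 → F => fun j : Fin 4 =>
      HahnSeries.coeff (emb F (pol t) / emb F n) (1 + ((j : ℕ) : ℤ))) :=
    Finite.injective_iff_bijective.1 (dig_inj hn hd)
  rw [← Finset.sum_neg_distrib]
  rw [← hbij.sum_comp (fun s : Fin 4 → F =>
      if HahnSeries.coeff (emb F m * ∑ j : Fin 4, cst F (s j) * (unif F) ^ (1 + (j : ℕ))) 1 = 1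
      then HK.val φ 5 (∑ j : Fin 4, cst F (s j) * (unif F) ^ (1 + (j : ℕ))) else 0)]
  refine Finset.sum_congr rfl fun t _ => ?_
  have h1 := cond hn hd m hm3 t
  have h2 : HK.val φ 5 (trn (fun j : Fin 4 =>
      HahnSeries.coeff (emb F (pol t) / emb F n) (1 + ((j : ℕ) : ℤ)))) =
      - atk n φ (mat 1 0 (-(emb F (pol t))) (-1)) := by
    rw [← values hn hd φ hφ (pol t)]
    have h3 := ((H9.val H19.lau H47.mtx) F R φ hφ).1 1 5 _ _ (trn_InO _ (u_InO hn hd t))
    unfold HK.val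
    rw [one_mul, one_mul] at h3
    exact h3.symm
  unfold trn at h1 h2
  simp only
  rw [h1, h2]
  unfold pol
  split_ifs <;> simp

end Pool.Agent.HK.H84
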